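import Pool.Agent.H75.PT.Targets
import Pool.Agent.H34.BW.ENT

/-!
# De Mol's tag system S₂ on products of blocks (problem MP_c95a35_lc): row LLN
-/

set_option autoImplicit false

open List Finset Pool.Agent.H68.TG Pool.Agent.H75.RW Pool.Agent.H70.PT Pool.Agent.H75.PT

namespace Pool.Agent.H11.BWP

theorem NN_le_add (r m : ℕ) (p p₁ p₂ : (Fin r → ℕ) → (Fin r → ℕ) → Prop)
    (h : ∀ X Y, p X Y → p₁ X Y ∨ p₂ X Y) :
    Pool.Agent.H70.PT.NN r m p ≤ Pool.Agent.H70.PT.NN r m p₁ + Pool.Agent.H70.PT.NN r m p₂ := by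
  unfold Pool.Agent.H70.PT.NN
  rw [← Nat.cast_add, Nat.cast_le]
  refine le_trans (Set.ncard_le_ncard (t := {q : (Fin r → Fin (2 ^ m)) × (Fin r → Fin (2 ^ m)) |
    p₁ (fun i => q.1 i) (fun i => q.2 i)} ∪ {q : (Fin r → Fin (2 ^ m)) × (Fin r → Fin (2 ^ m)) |
    p₂ (fun i => q.1 i) (fun i => q.2 i)}) ?_ (Set.toFinite _)) (Set.ncard_union_le _ _)
  intro q hq
  exact h _ _ hq

theorem sum_range_two_mul_nat (f : ℕ → ℕ) (n : ℕ) :
    ∑ t ∈ Finset.range n, f (2 * t) ≤ ∑ x ∈ Finset.range (2 * n), f x := by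
  induction n with
  | zero => exact le_refl _
  | succ n ih =>
    rw [show 2 * (n + 1) = 2 * n + 1 + 1 by ring, Finset.sum_range_succ, Finset.sum_range_succ,
      Finset.sum_range_succ]
    omega

theorem LL_ge {r : ℕ} (m : ℕ) (hm : 1 ≤ m) (X Y : Fin r → ℕ) :
    (nk 0 m 0 X Y : ℝ) * 2 ^ m ≤ Pool.Agent.H70.PT.LL (false, X, Y) := by
  classical
  have h1 : nk 0 m 0 X Y * 2 ^ m ≤ Pool.Agent.H70.PT.LL (false, X, Y) := by
    unfold nk Pool.Agent.H70.PT.LL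
    dsimp only
    rw [← smul_eq_mul, ← Finset.sum_const]
    refine le_trans (Finset.sum_le_sum (g := fun i => X i + 2 * Y i) fun i hi => ?_)
      (Finset.sum_le_sum_of_subset (Finset.subset_univ _))
    have h2 := (Finset.mem_filter.1 hi).2.2
    obtain ⟨d, rfl⟩ : ∃ d, m = d + 1 := ⟨m - 1, by omega⟩
    rw [Nat.add_sub_cancel] at h2
    rw [pow_succ]
    omega
  exact_mod_cast h1

theorem exists_of_nk {r : ℕ} (m : ℕ) (X Y : Fin r → ℕ) (h : (0 : ℝ) < nk 0 m 0 X Y) :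
    ∃ i, 2 ^ (m - 1) ≤ Y i := by
  classical
  have h1 : 0 < nk 0 m 0 X Y := by exact_mod_cast h
  unfold nk at h1
  obtain ⟨i, hi⟩ := Finset.card_pos.1 h1
  exact ⟨i, (Finset.mem_filter.1 hi).2.2⟩

theorem exp_le {g : ℝ} {n r : ℕ} (hg : 0 < g) (hn : 48 / g ^ 2 ≤ n)
    (hr : (2 : ℝ) ^ (g * n) ≤ r) : Real.exp (-(r * 1 / 6)) ≤ 2 ^ (-(n : ℝ)) := by
  have hn0 : (0 : ℝ) ≤ n := Nat.cast_nonneg n
  have hl : 1 / 2 < Real.log 2 := by
    have := Real.log_two_gt_d9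
    linarith
  have hl1 : Real.log 2 < 1 := by
    have := Real.log_two_lt_d9
    linarith
  have h1 : (2 : ℝ) ^ (g * n) = Real.exp (Real.log 2 * (g * n)) := by
    rw [Real.rpow_def_of_pos (by norm_num)]
  have hx : g * n / 2 ≤ Real.log 2 * (g * n) := by
    have := mul_le_mul_of_nonneg_right hl.le (mul_nonneg hg.le hn0)
    linarith
  have hx0 : 0 ≤ g * n / 2 := by positivity
  have h2 := Real.quadratic_le_exp_of_nonneg hx0
  have h3 : Real.exp (g * n / 2) ≤ Real.exp (Real.log 2 * (g * n)) := Real.exp_le_exp.2 hx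
  have h4 : 48 ≤ n * g ^ 2 := by
    rwa [div_le_iff₀ (by positivity)] at hn
  have h5 : 6 * (n : ℝ) ≤ (g * n / 2) ^ 2 / 2 := by
    have : (g * n / 2) ^ 2 / 2 = n * (n * g ^ 2) / 8 := by ring
    rw [this]
    have := mul_le_mul_of_nonneg_left h4 hn0
    linarith
  have h6 : 6 * (n : ℝ) ≤ r := by
    rw [h1] at hr
    linarith
  rw [Real.rpow_def_of_pos (by norm_num : (0 : ℝ) < 2)]
  apply Real.exp_le_exp.2
  have := mul_le_mul_of_nonneg_right hl1.le hn0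
  linarith

/-- outside of the two bad sets the computation is as predicted -/
theorem good_of {e : ℝ} (he : 0 < e) (he1 : e < 1) (NST : Pool.Agent.H70.PT.T_NST)
    (TIM : T_TIM) {n m r : ℕ} (hn1 : 1 ≤ n) (hr : 1 ≤ r) (hmn : n + 3 ≤ m)
    (h16 : 16 / e ≤ n) (X Y : Fin r → ℕ)
    (h1 : ∀ t ≤ n, |(Pool.Agent.H70.PT.LL (ru t X Y) : ℝ) -
      Pool.Agent.H70.PT.LL (false, X, Y)| ≤ e / 20 * r * 2 ^ m)
    (h2 : (r : ℝ) / 8 < nk 0 m 0 X Y) :
    (∀ t ≤ n, (1 - e) * (wd X Y).length ≤ (ps^[2 * t] (wd X Y)).length ∧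
      ((ps^[2 * t] (wd X Y)).length : ℝ) ≤ (1 + e) * (wd X Y).length) ∧
    ∀ j : ℕ, (j : ℝ) ≤ (1 - e) * n * (wd X Y).length / 2 → 2 ≤ (step^[j] (wd X Y)).length := by
  have hr' : (1 : ℝ) ≤ r := by exact_mod_cast hr
  have hY : ∃ i, 2 ^ (m - 1) ≤ Y i := exists_of_nk m X Y (by linarith)
  have hY' : ∀ t ≤ n, ∃ i, 2 ^ (t + 2) ≤ Y i := by
    intro t ht
    obtain ⟨i, hi⟩ := hY
    exact ⟨i, le_trans (Nat.pow_le_pow_right (by norm_num) (by omega)) hi⟩
  have hlen : ∀ t ≤ n, (ps^[2 * t] (wd X Y)).length =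
      Pool.Agent.H70.PT.LL (ru t X Y) - cond (ru t X Y).1 1 0 :=
    fun t ht => (NST r t X Y (hY' t ht)).1
  have hlen0 : (wd X Y).length = Pool.Agent.H70.PT.LL (false, X, Y) := by
    have := hlen 0 (by omega)
    exact this
  have hL : (r : ℝ) / 8 * 2 ^ m ≤ (wd X Y).length := by
    rw [hlen0]
    refine le_trans ?_ (LL_ge m (by omega) X Y)
    exact mul_le_mul_of_nonneg_right h2.le (by positivity)
  obtain ⟨L, hLd⟩ : ∃ L : ℝ, L = ((wd X Y).length : ℝ) := ⟨_, rfl⟩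
  rw [← hLd] at hL
  have hpow : (0 : ℝ) < 2 ^ m := by positivity
  have hbig : 2 / e ≤ L := by
    have h3 : (n : ℝ) ≤ 2 ^ m := by
      have h4 : n ≤ 2 ^ m := le_trans (by omega) (Nat.lt_two_pow_self (n := m)).le
      exact_mod_cast h4
    have h5 : (2 : ℝ) ^ m / 8 ≤ (r : ℝ) / 8 * 2 ^ m := by
      have := mul_le_mul_of_nonneg_right hr' hpow.le
      linarith
    have h6 : 2 / e = 16 / e / 8 := by ring
    rw [h6]
    linarith
  have hbig' : 2 ≤ e * L := by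
    rw [div_le_iff₀ he] at hbig
    linarith
  have key : ∀ t ≤ n, (1 - e) * L ≤ (ps^[2 * t] (wd X Y)).length ∧
      ((ps^[2 * t] (wd X Y)).length : ℝ) ≤ (1 + e) * L := by
    intro t ht
    have h3 := h1 t ht
    rw [← hlen0, ← hLd, abs_le] at h3
    have h4 : e / 20 * r * 2 ^ m ≤ 8 / 20 * (e * L) := by
      have := mul_le_mul_of_nonneg_left hL he.le
      linarith
    have h5 := hlen t ht
    have h6 : (ps^[2 * t] (wd X Y)).length ≤ Pool.Agent.H70.PT.LL (ru t X Y) := by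
      rw [h5]
      exact Nat.sub_le _ _
    have h7 : Pool.Agent.H70.PT.LL (ru t X Y) ≤ (ps^[2 * t] (wd X Y)).length + 1 := by
      rw [h5]
      have h8 : (cond (ru t X Y).1 1 0 : ℕ) ≤ 1 := by
        cases (ru t X Y).1
        · exact Nat.zero_le _
        · exact le_refl _
      omega
    have h6' : ((ps^[2 * t] (wd X Y)).length : ℝ) ≤ Pool.Agent.H70.PT.LL (ru t X Y) := by
      exact_mod_cast h6
    have h7' : (Pool.Agent.H70.PT.LL (ru t X Y) : ℝ) ≤ (ps^[2 * t] (wd X Y)).length + 1 := by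
      exact_mod_cast h7
    constructor
    · linarith [h3.1]
    · linarith [h3.2]
  rw [← hLd]
  refine ⟨key, ?_⟩
  intro j hj
  refine TIM (wd X Y) (2 * n) (by omega) (NST r n X Y (hY' n le_rfl)).2 j ?_
  refine le_trans ?_ (sum_range_two_mul_nat (fun i => ((ps^[i] (wd X Y)).length + 1) / 2) n)
  have h3 : ∑ t ∈ Finset.range n, (1 - e) * L / 2 ≤
      ∑ t ∈ Finset.range n, ((((ps^[2 * t] (wd X Y)).length + 1) / 2 : ℕ) : ℝ) := by
    refine Finset.sum_le_sum fun t ht => ?_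
    have h4 := (key t (Finset.mem_range.1 ht).le).1
    have h5 : (ps^[2 * t] (wd X Y)).length ≤ 2 * (((ps^[2 * t] (wd X Y)).length + 1) / 2) := by
      omega
    have h5' : ((ps^[2 * t] (wd X Y)).length : ℝ) ≤
        2 * ((((ps^[2 * t] (wd X Y)).length + 1) / 2 : ℕ) : ℝ) := by
      exact_mod_cast h5
    linarith
  rw [Finset.sum_const, Finset.card_range, nsmul_eq_mul, ← Nat.cast_sum] at h3
  have h4 : (j : ℝ) ≤ ((∑ t ∈ Finset.range n, ((ps^[2 * t] (wd X Y)).length + 1) / 2 : ℕ) : ℝ) := by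
    refine le_trans hj (le_trans (le_of_eq ?_) h3)
    ring
  exact_mod_cast h4

theorem pf_LLN (LLB : T_LLB) (NST : Pool.Agent.H70.PT.T_NST) (LOW : Pool.Agent.H70.PT.T_LOW)
    (LEN : Pool.Agent.H70.PT.T_LEN) (TIM : T_TIM) : Pool.Agent.H75.PT.T_LLN := by
  intro g hg e he
  by_cases he1 : e < 1
  swap
  · refine ⟨1, one_pos, 1, fun n hn m r hnm _ => ?_⟩
    exfalso
    have h1 : (1 : ℝ) ≤ n := by exact_mod_cast hn
    have h2 : (0 : ℝ) ≤ m := Nat.cast_nonneg m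
    have h3 : (1 - e) * (m : ℝ) ≤ 0 := mul_nonpos_of_nonpos_of_nonneg (by linarith) h2
    linarith
  obtain ⟨c₁, hc₁, n₁, h₁⟩ := LLB g hg (e / 20) (by positivity)
  obtain ⟨d, hd⟩ : ∃ d, d = min c₁ 1 := ⟨_, rfl⟩
  have hd0 : 0 < d := by
    rw [hd]
    exact lt_min hc₁ one_pos
  have hdc : d ≤ c₁ := by
    rw [hd]
    exact min_le_left _ _
  have hd1 : d ≤ 1 := by
    rw [hd]
    exact min_le_right _ _
  refine ⟨d / 2, by positivity, n₁ + ⌈16 / e⌉₊ + ⌈48 / g ^ 2⌉₊ + ⌈2 / d⌉₊ + 1,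
    fun n hn m r hnm hr => ?_⟩
  have hn1 : n₁ ≤ n := by omega
  have hn16 : 16 / e ≤ n := le_trans (Nat.le_ceil _) (by exact_mod_cast (by omega : ⌈16 / e⌉₊ ≤ n))
  have hn48 : 48 / g ^ 2 ≤ n :=
    le_trans (Nat.le_ceil _) (by exact_mod_cast (by omega : ⌈48 / g ^ 2⌉₊ ≤ n))
  have hn2 : 2 / d ≤ n := le_trans (Nat.le_ceil _) (by exact_mod_cast (by omega : ⌈2 / d⌉₊ ≤ n))
  have hnpos : 1 ≤ n := by omega
  have hn0 : (0 : ℝ) ≤ n := Nat.cast_nonneg n
  have hm0 : (0 : ℝ) ≤ m := Nat.cast_nonneg m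
  have hem : 0 ≤ e * m := by positivity
  have hnm' : (n : ℝ) ≤ m := by linarith
  have h16 : 16 ≤ e * n := by
    rw [div_le_iff₀ he] at hn16
    linarith
  have hmn3 : n + 3 ≤ m := by
    have h2 : (n : ℝ) + 3 ≤ m := by
      have := mul_le_mul_of_nonneg_left hnm' he.le
      linarith
    exact_mod_cast h2
  have hka : 0 ≤ ka (3 / 4) := by
    obtain ⟨h1, _, _, _, _, _, h2, _⟩ := Pool.Agent.H34.BW.pf_ENT
    rw [← h1]
    exact h2.monotoneOn ⟨by norm_num, by norm_num⟩ ⟨by norm_num, by norm_num⟩ (by norm_num)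
  have hr2 : (2 : ℝ) ^ (g * n) ≤ r := by
    refine le_trans (Real.rpow_le_rpow_of_exponent_le (by norm_num) ?_) hr
    have := mul_nonneg hka hn0
    linarith
  have hr1 : 1 ≤ r := by
    have h2 : (0 : ℝ) < r := lt_of_lt_of_le (Real.rpow_pos_of_pos (by norm_num) _) hr
    exact_mod_cast h2
  have hB1 := h₁ n hn1 m r (by
    have : e / 20 * m ≤ e * m := by
      have := hem
      linarith
    linarith) hr
  have hB2 := LOW r 0 m 0 (by omega) le_rfl
  rw [Nat.choose_self, Nat.cast_one, pow_zero, div_one] at hB2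
  have hB2' := exp_le hg hn48 hr2
  have h4 : (0 : ℝ) ≤ (4 ^ m) ^ r := by positivity
  have hdn : 1 ≤ d / 2 * n := by
    rw [div_le_iff₀ hd0] at hn2
    linarith
  have hfin : (2 : ℝ) ^ (-(c₁ * n)) + 2 ^ (-(n : ℝ)) ≤ 2 ^ (-(d / 2 * n)) := by
    have e1 : (2 : ℝ) ^ (-(c₁ * n)) ≤ 2 ^ (-(d / 2 * n) - 1) := by
      refine Real.rpow_le_rpow_of_exponent_le (by norm_num) ?_
      have := mul_le_mul_of_nonneg_right hdc hn0
      linarith
    have e2 : (2 : ℝ) ^ (-(n : ℝ)) ≤ 2 ^ (-(d / 2 * n) - 1) := by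
      refine Real.rpow_le_rpow_of_exponent_le (by norm_num) ?_
      have := mul_le_mul_of_nonneg_right hd1 hn0
      linarith
    have e3 : (2 : ℝ) ^ (-(d / 2 * n) - 1) = 2 ^ (-(d / 2 * n)) / 2 := by
      rw [Real.rpow_sub (by norm_num), Real.rpow_one]
    linarith
  refine le_trans (NN_le_add r m _
    (fun X Y => ∃ t ≤ n, e / 20 * r * 2 ^ m < |(Pool.Agent.H70.PT.LL (ru t X Y) : ℝ) -
      Pool.Agent.H70.PT.LL (false, X, Y)|)
    (fun X Y => (nk 0 m 0 X Y : ℝ) ≤ r * 1 / 8) ?_) ?_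
  · intro X Y hbad
    by_contra hno
    rw [not_or] at hno
    apply hbad
    refine good_of he he1 NST TIM hnpos hr1 hmn3 hn16 X Y ?_ ?_
    · intro t ht
      by_contra hlt
      exact hno.1 ⟨t, ht, lt_of_not_ge hlt⟩
    · have := lt_of_not_ge hno.2
      linarith
  · refine le_trans (add_le_add hB1 (hB2.trans (mul_le_mul_of_nonneg_right hB2' h4))) ?_
    rw [← add_mul]
    exact mul_le_mul_of_nonneg_right hfin h4

end Pool.Agent.H11.BWP
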