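import Pool.Agent.H75.PT.Targets

/-!
# De Mol's tag system S₂ on products of blocks (problem MP_c95a35_lc): row MEA
-/

set_option autoImplicit false

open List Finset Pool.Agent.H68.TG Pool.Agent.H75.RW Pool.Agent.H70.PT Pool.Agent.H75.PT

namespace Pool.Agent.H11.BWP

theorem SS_const (r l : ℕ) (C : ℝ) :
    Pool.Agent.H70.PT.SS r l (fun _ _ => C) = ((4 : ℝ) ^ l) ^ r * C := by
  unfold Pool.Agent.H70.PT.SS
  rw [Finset.sum_const, Finset.sum_const, Finset.card_univ, Fintype.card_fun, Fintype.card_fin,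
    Fintype.card_fin, nsmul_eq_mul, nsmul_eq_mul]
  push_cast
  rw [← mul_assoc, ← mul_pow, ← mul_pow]
  norm_num

theorem sum_choose (t : ℕ) : ∑ k ∈ Finset.range (t + 1), (t.choose k : ℝ) = 2 ^ t := by
  have h := Nat.sum_range_choose t
  have h2 : ((∑ k ∈ Finset.range (t + 1), t.choose k : ℕ) : ℝ) = ((2 ^ t : ℕ) : ℝ) := by rw [h]
  push_cast at h2
  exact h2

/-- the function of all counters which only depends on one of them -/
theorem prod_one {r : ℕ} (i : Fin r) (F : ℕ → ℝ) (P : Fin r → ℕ) :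
    ∏ j, (fun (j : Fin r) (x : ℕ) => if j = i then F x else 1) j (P j) = F (P i) := by
  dsimp only
  rw [Finset.prod_ite_eq' Finset.univ i fun j => F (P j), if_pos (Finset.mem_univ i)]

theorem prod_val {r : ℕ} (t : ℕ) (i : Fin r) (F : ℕ → ℝ) :
    ((2 : ℝ) ^ r) ^ t * ∏ j : Fin r, ∑ k ∈ Finset.range (t + 1), (t.choose k : ℝ) *
      (fun (j : Fin r) (x : ℕ) => if j = i then F x else 1) j (0 + k) =
      ((4 : ℝ) ^ r) ^ t * bm t F := by
  have h1 : ∀ j : Fin r, ∑ k ∈ Finset.range (t + 1), (t.choose k : ℝ) *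
      (fun (j : Fin r) (x : ℕ) => if j = i then F x else 1) j (0 + k) =
      2 ^ t * (if j = i then bm t F else 1) := by
    intro j
    dsimp only
    by_cases hj : j = i
    · rw [if_pos hj]
      unfold bm
      rw [mul_div_cancel₀ _ (pow_ne_zero t (two_ne_zero (α := ℝ)))]
      refine Finset.sum_congr rfl fun k _ => ?_
      rw [if_pos hj, zero_add]
    · rw [if_neg hj, mul_one, ← sum_choose]
      refine Finset.sum_congr rfl fun k _ => ?_
      rw [if_neg hj, mul_one]
  rw [Finset.prod_congr rfl fun j _ => h1 j, Finset.prod_mul_distrib, Finset.prod_const,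
    Finset.card_univ, Fintype.card_fin, Finset.prod_ite_eq' Finset.univ i fun _ => bm t F,
    if_pos (Finset.mem_univ i), ← mul_assoc]
  congr 1
  rw [← pow_mul, ← pow_mul, ← pow_mul, show (4 : ℝ) = 2 * 2 by norm_num, mul_pow,
    mul_comm t r]

theorem pf_MEA (HIB : Pool.Agent.H70.PT.T_HIB) (TOB : Pool.Agent.H70.PT.T_TOB)
    (TOC : T_TOC) : Pool.Agent.H75.PT.T_MEA := by
  intro r t m i F h
  obtain ⟨l, rfl⟩ := Nat.exists_eq_add_of_le h
  have h4 : ((4 : ℝ) ^ (t + l)) ^ r = ((4 : ℝ) ^ l) ^ r * (4 ^ r) ^ t := by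
    rw [← pow_mul, ← pow_mul, ← pow_mul, ← pow_add]
    congr 1
    ring
  constructor
  · have h1 := HIB r t l (fun P _ _ _ => F (P i))
    rw [h1]
    have h2 : tot (fun P _ => F (P i)) t false (fun _ : Fin r => 0) (fun _ => 0) =
        (4 ^ r) ^ t * bm t F := by
      rw [← prod_val t i F]
      refine Eq.trans ?_ (TOC r t false (fun _ => 0) (fun _ => 0)
        (fun (j : Fin r) (x : ℕ) => if j = i then F x else 1))
      congr 1
      funext P _
      exact (prod_one i F P).symm
    rw [h2, SS_const, h4, mul_assoc]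
  · have h1 := HIB r t l (fun _ Q _ _ => F (Q i))
    rw [h1]
    have h2 : tot (fun _ Q => F (Q i)) t false (fun _ : Fin r => 0) (fun _ => 0) =
        (4 ^ r) ^ t * bm t F := by
      rw [← prod_val t i F]
      refine Eq.trans ?_ (TOB r t false (fun _ => 0) (fun _ => 0)
        (fun (j : Fin r) (x : ℕ) => if j = i then F x else 1))
      congr 1
      funext _ Q
      exact (prod_one i F Q).symm
    rw [h2, SS_const, h4, mul_assoc]

end Pool.Agent.H11.BWP
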