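import Pool.Agent.H70.PT.Targets2

/-!
# De Mol's tag system S₂ on products of blocks (problem MP_c95a35_lc): row MOF
-/

set_option autoImplicit false

open List Finset Pool.Agent.H68.TG Pool.Agent.H75.RW Pool.Agent.H70.PT

namespace Pool.Agent.H11.BWP

theorem bodd_two_mul_add (k m : ℕ) : (2 * k + m).bodd = m.bodd := by
  rw [Nat.bodd_add, Nat.bodd_mul]
  simp

theorem sum_upd {r : ℕ} (X : Fin r → ℕ) (z : Fin r) (hz : (z : ℕ) = 0) (i : ℕ) (hi : 1 ≤ i)
    (m : ℕ) : (∑ j : Fin r, if (j : ℕ) < i then Function.update X z m j else 0) =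
      m + ∑ j : Fin r, if (j : ℕ) < i then Function.update X z 0 j else 0 := by
  have h1 : ∀ j : Fin r, (if (j : ℕ) < i then Function.update X z m j else 0) =
      (if j = z then m else 0) + (if (j : ℕ) < i then Function.update X z 0 j else 0) := by
    intro j
    by_cases hj : j = z
    · subst hj
      rw [if_pos (by omega), if_pos rfl, if_pos (by omega), Function.update_self,
        Function.update_self]
      rfl
    · rw [if_neg hj, Function.update_of_ne hj, Function.update_of_ne hj, zero_add]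
  rw [Finset.sum_congr rfl fun j _ => h1 j, Finset.sum_add_distrib]
  congr 1
  rw [Finset.sum_ite_eq' Finset.univ z fun _ => m]
  rw [if_pos (Finset.mem_univ _)]

theorem pst_zero {r : ℕ} (a : Bool) (X : Fin r → ℕ) : pst a X 0 = a := by
  unfold pst
  simp

theorem pst_upd {r : ℕ} (a : Bool) (X : Fin r → ℕ) (z : Fin r) (hz : (z : ℕ) = 0) (i : ℕ)
    (hi : 1 ≤ i) (m : ℕ) :
    pst a (Function.update X z m) i = xor m.bodd (pst a (Function.update X z 0) i) := by
  unfold pst
  rw [sum_upd X z hz i hi m, Nat.bodd_add]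
  cases a <;> cases m.bodd <;> simp

theorem pst_shift {r : ℕ} (a : Bool) (X : Fin r → ℕ) (z : Fin r) (hz : (z : ℕ) = 0) (i : ℕ)
    (k m : ℕ) :
    pst a (Function.update X z (2 * k + m)) i = pst a (Function.update X z m) i := by
  rcases Nat.eq_zero_or_pos i with hi | hi
  · subst hi
    rw [pst_zero, pst_zero]
  · rw [pst_upd a X z hz i hi, pst_upd a X z hz i hi m, bodd_two_mul_add]

theorem pst_xor {r : ℕ} (a b : Bool) (Y : Fin r → ℕ) (i : ℕ) :
    pst (xor a b) Y i = xor a (pst b Y i) := by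
  unfold pst
  rw [Bool.xor_assoc]

theorem sb_upd {r : ℕ} (a : Bool) (X Y : Fin r → ℕ) (z : Fin r) (hz : (z : ℕ) = 0) (i : ℕ)
    (m : ℕ) :
    sb (a, Function.update X z m, Y) i = xor m.bodd (sb (a, Function.update X z 0, Y) i) := by
  unfold sb
  dsimp only
  rw [pst_upd a X z hz r (by have := z.2; omega) m, pst_xor]

theorem sb_shift {r : ℕ} (a : Bool) (X Y : Fin r → ℕ) (z : Fin r) (hz : (z : ℕ) = 0) (i : ℕ)
    (k m : ℕ) :
    sb (a, Function.update X z (2 * k + m), Y) i = sb (a, Function.update X z m, Y) i := by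
  unfold sb
  dsimp only
  rw [pst_shift a X z hz r k m]

theorem hf_lin' (s : Bool) (n c : ℕ) : hf s (2 * n + c) = n + hf s c := by
  unfold hf
  cases s
  · simp
    omega
  · simp
    omega

theorem t3_lin' (e : Bool) (n m : ℕ) : t3 e (n + m) = t3 e 1 * n + t3 e m := by
  unfold t3
  cases e
  · simp
  · simp
    omega

theorem t3_odd (e : Bool) : Odd (t3 e 1) := by
  unfold t3
  cases e
  · exact odd_one
  · exact ⟨1, rfl⟩

theorem nx_upd {r : ℕ} (a : Bool) (X Y : Fin r → ℕ) (z : Fin r) (hz : (z : ℕ) = 0) (k m : ℕ) :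
    nx (a, Function.update X z (2 * k + m), Y) =
      ((nx (a, Function.update X z m, Y)).1,
        Function.update (nx (a, Function.update X z m, Y)).2.1 z
          (t3 (sb (a, Function.update X z m, Y) 0) 1 * k +
            (nx (a, Function.update X z m, Y)).2.1 z),
        (nx (a, Function.update X z m, Y)).2.2) := by
  unfold Pool.Agent.H70.PT.nx
  refine Prod.ext ?_ (Prod.ext ?_ ?_)
  · exact sb_shift a X Y z hz r k m
  · funext i
    dsimp only
    rw [sb_shift a X Y z hz i k m, pst_shift a X z hz i k m]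
    by_cases hi : i = z
    · subst hi
      rw [Function.update_self, Function.update_self, Function.update_self, hf_lin', t3_lin', hz]
    · rw [Function.update_of_ne hi, Function.update_of_ne hi, Function.update_of_ne hi]
  · funext i
    dsimp only
    rw [sb_shift a X Y z hz i k m, pst_shift a X z hz (i + 1) k m]

theorem PP_succ {r : ℕ} (n : ℕ) (q : Cf r) (i : Fin r) :
    PP (n + 1) q i = cP q i + PP n (nx q) i := by
  unfold PP
  rw [Finset.sum_range_succ', add_comm]
  rfl

theorem QQ_succ {r : ℕ} (n : ℕ) (q : Cf r) (i : Fin r) :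
    QQ (n + 1) q i = cQ q i + QQ n (nx q) i := by
  unfold QQ
  rw [Finset.sum_range_succ', add_comm]
  rfl

theorem sum_range_two_mul (f : ℕ → ℝ) (m : ℕ) :
    ∑ x ∈ Finset.range (2 * m), f x = ∑ x ∈ Finset.range m, (f (2 * x) + f (2 * x + 1)) := by
  induction m with
  | zero => rfl
  | succ m ih =>
    rw [show 2 * (m + 1) = 2 * m + 1 + 1 by ring, Finset.sum_range_succ, Finset.sum_range_succ,
      ih, Finset.sum_range_succ]
    ring

theorem sum_range_mul' (f : ℕ → ℝ) (a b : ℕ) :
    ∑ x ∈ Finset.range (a * b), f x =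
      ∑ v ∈ Finset.range b, ∑ x ∈ Finset.range a, f (x + a * v) := by
  induction b with
  | zero => simp
  | succ b ih =>
    rw [show a * (b + 1) = a * b + a by ring, Finset.sum_range_add, ih, Finset.sum_range_succ]
    congr 1
    refine Finset.sum_congr rfl fun x _ => ?_
    rw [add_comm]

theorem two_terms (w : ℝ) (s : Bool) (u p : ℕ) (hu : Odd u) :
    w ^ (cond (xor p.bodd s) 1 0) + w ^ (cond (xor (u + p).bodd s) 1 0) = 1 + w := by
  obtain ⟨t, ht⟩ := hu
  have h1 : (u + p).bodd = !p.bodd := by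
    rw [ht, show 2 * t + 1 + p = 2 * t + (p + 1) by ring, bodd_two_mul_add, Nat.bodd_succ]
  rw [h1]
  cases p.bodd <;> cases s <;> simp [add_comm]

theorem main_step {r : ℕ} (F : ℕ → Cf r → Fin r → ℕ) (cF : Cf r → Fin r → ℕ)
    (g : Bool → (Fin r → ℕ) → (Fin r → ℕ) → Fin r → Bool)
    (h0 : ∀ q i, F 0 q i = 0)
    (hs : ∀ n q i, F (n + 1) q i = cF q i + F n (nx q) i)
    (hc : ∀ (a : Bool) (X Y : Fin r → ℕ) (z : Fin r), (z : ℕ) = 0 → ∀ (i : Fin r) (m : ℕ),
      cF (a, Function.update X z m, Y) i =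
        cond (xor m.bodd (g a (Function.update X z 0) Y i)) 1 0) (w : ℝ) :
    ∀ (n : ℕ) (a : Bool) (X Y : Fin r → ℕ) (z i : Fin r) (u p : ℕ), (z : ℕ) = 0 → Odd u →
      ∑ x ∈ Finset.range (2 ^ n), w ^ F n (a, Function.update X z (u * x + p), Y) i =
        (1 + w) ^ n := by
  intro n
  induction n with
  | zero =>
    intro a X Y z i u p hz hu
    rw [pow_zero, Finset.sum_range_one, h0, pow_zero, pow_zero]
  | succ n ih =>
    intro a X Y z i u p hz hu
    have key : ∀ c : ℕ, ∑ x ∈ Finset.range (2 ^ n),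
        w ^ F (n + 1) (a, Function.update X z (u * (2 * x + c) + p), Y) i =
        w ^ (cond (xor (u * c + p).bodd (g a (Function.update X z 0) Y i)) 1 0) * (1 + w) ^ n := by
      intro c
      have h1 := ih (nx (a, Function.update X z (u * c + p), Y)).1
        (nx (a, Function.update X z (u * c + p), Y)).2.1
        (nx (a, Function.update X z (u * c + p), Y)).2.2 z i
        (t3 (sb (a, Function.update X z (u * c + p), Y) 0) 1 * u)
        ((nx (a, Function.update X z (u * c + p), Y)).2.1 z) hz ((t3_odd _).mul hu)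
      rw [← h1, Finset.mul_sum]
      refine Finset.sum_congr rfl fun x _ => ?_
      rw [hs, pow_add, show u * (2 * x + c) + p = 2 * (u * x) + (u * c + p) by ring,
        hc a X Y z hz i, bodd_two_mul_add, nx_upd a X Y z hz, mul_assoc]
    rw [pow_succ, mul_comm, sum_range_two_mul, Finset.sum_add_distrib]
    have h2 := key 0
    have h3 := key 1
    simp only [add_zero] at h2
    rw [h2, h3, mul_zero, zero_add, mul_one, ← add_mul, two_terms w _ u p hu, pow_succ, mul_comm]

theorem PP_main {r : ℕ} (w : ℝ) (n : ℕ) (a : Bool) (X Y : Fin r → ℕ) (z i : Fin r) (u p : ℕ)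
    (hz : (z : ℕ) = 0) (hu : Odd u) :
    ∑ x ∈ Finset.range (2 ^ n), w ^ PP n (a, Function.update X z (u * x + p), Y) i =
        (1 + w) ^ n := by
  refine main_step (fun n q i => PP n q i) cP (fun a X Y i => sb (a, X, Y) i) ?_ ?_ ?_ w n a X Y
    z i u p hz hu
  · intro q i
    rfl
  · intro n q i
    exact PP_succ n q i
  · intro a X Y z hz i m
    unfold cP
    rw [sb_upd a X Y z hz i m]

theorem QQ_main {r : ℕ} (w : ℝ) (n : ℕ) (a : Bool) (X Y : Fin r → ℕ) (z i : Fin r) (u p : ℕ)
    (hz : (z : ℕ) = 0) (hu : Odd u) :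
    ∑ x ∈ Finset.range (2 ^ n), w ^ QQ n (a, Function.update X z (u * x + p), Y) i =
        (1 + w) ^ n := by
  refine main_step (fun n q i => QQ n q i) cQ (fun a X _ i => pst a X (i + 1)) ?_ ?_ ?_ w n a X Y
    z i u p hz hu
  · intro q i
    rfl
  · intro n q i
    exact QQ_succ n q i
  · intro a X Y z hz i m
    unfold cQ
    dsimp only
    rw [pst_upd a X z hz (i + 1) (by omega) m]

theorem pf_MOF : T_MOF := by
  intro r n m X Y z i w hz hnm
  obtain ⟨d, rfl⟩ : ∃ d, m = n + d := ⟨m - n, by omega⟩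
  have hfin : ((2 : ℝ) ^ d) * (1 + w) ^ n = 2 ^ (n + d) * ((1 + w) / 2) ^ n := by
    rw [pow_add, div_pow]
    have h2 : (2 : ℝ) ^ n ≠ 0 := pow_ne_zero _ two_ne_zero
    field_simp
  have hsum : ∀ f : ℕ → ℝ, (∀ v, ∑ x ∈ Finset.range (2 ^ n), f (x + 2 ^ n * v) = (1 + w) ^ n) →
      ∑ x ∈ Finset.range (2 ^ (n + d)), f x = 2 ^ (n + d) * ((1 + w) / 2) ^ n := by
    intro f hf
    rw [pow_add, sum_range_mul', Finset.sum_congr rfl fun v _ => hf v, Finset.sum_const,
      Finset.card_range, nsmul_eq_mul, Nat.cast_pow, Nat.cast_ofNat, hfin]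
  constructor
  · refine hsum _ fun v => ?_
    have h := PP_main w n false X Y z i 1 (2 ^ n * v) hz odd_one
    simp only [one_mul] at h
    exact h
  · refine hsum _ fun v => ?_
    have h := QQ_main w n false X Y z i 1 (2 ^ n * v) hz odd_one
    simp only [one_mul] at h
    exact h

end Pool.Agent.H11.BWP
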